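import Pool.Agent.Helper76.CQ.Defs
import Pool.Agent.Helper76.CY.Fano

/-!
# Project CQ (`MP_9410e4_ag`), piece CQ-4: the arc of a sequence of planes
-/

namespace Pool.Agent.Helper81.CQ

open MvPolynomial Pool.Agent.Helper76.CY Pool.Agent.Helper76.CQ Filter Topology

/-- evaluation of a polynomial at a family of bounded sequences -/
noncomputable def phi (Y : Idx → Bdd) : MvPolynomial Idx ℚ_[2] →+* Bdd :=
  eval₂Hom cst Y

theorem phi_apply (Y : Idx → Bdd) (f : MvPolynomial Idx ℚ_[2]) (n : ℕ) :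
    (phi Y f).1 n = eval (fun q => (Y q).1 n) f := by
  let ev : Bdd →+* ℚ_[2] := (Pi.evalRingHom (fun _ : ℕ => ℚ_[2]) n).comp Bdd.subtype
  have h : ev.comp (phi Y) = eval (fun q => (Y q).1 n) := by
    apply MvPolynomial.ringHom_ext
    · intro r
      simp only [phi, RingHom.comp_apply, coe_eval₂Hom, eval₂_C, eval_C]
      rfl
    · intro q
      simp only [phi, RingHom.comp_apply, coe_eval₂Hom, eval₂_X, eval_X]
      rfl
  exact congrArg (fun g : MvPolynomial Idx ℚ_[2] →+* ℚ_[2] => g f) h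

theorem mk_phi (Y : Idx → Bdd) (f : MvPolynomial Idx ℚ_[2]) :
    Ideal.Quotient.mk Zer (phi Y f) = aeval (fun q => Ideal.Quotient.mk Zer (Y q)) f := by
  have h : (Ideal.Quotient.mk Zer).comp (phi Y) =
      ((aeval (fun q => Ideal.Quotient.mk Zer (Y q)) : MvPolynomial Idx ℚ_[2] →ₐ[ℚ_[2]] GO) :
        MvPolynomial Idx ℚ_[2] →+* GO) := by
    apply MvPolynomial.ringHom_ext
    · intro r
      simp only [phi, RingHom.comp_apply, coe_eval₂Hom, eval₂_C]
      erw [aeval_C]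
      rfl
    · intro q
      simp only [phi, RingHom.comp_apply, coe_eval₂Hom, eval₂_X]
      erw [aeval_X]
  exact congrArg (fun g : MvPolynomial Idx ℚ_[2] →+* GO => g f) h

theorem mk_eq_zero_iff (z : Bdd) :
    Ideal.Quotient.mk Zer z = 0 ↔ ∀ᶠ n in (UU : Filter ℕ), z.1 n = 0 :=
  Ideal.Quotient.eq_zero_iff_mem

theorem aeval_eq_zero_iff (Y : Idx → Bdd) (f : MvPolynomial Idx ℚ_[2]) :
    aeval (fun q => Ideal.Quotient.mk Zer (Y q)) f = 0 ↔
      ∀ᶠ n in (UU : Filter ℕ), eval (fun q => (Y q).1 n) f = 0 := by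
  rw [← mk_phi, mk_eq_zero_iff]
  simp only [phi_apply]

/-- the polynomials that express that a plane is in the cubic -/
noncomputable def trip (D : Ten ℚ_[2]) (i j k : Fin 3) : MvPolynomial Idx ℚ_[2] :=
  tri D (row X i) (row X j) (row X k)

theorem aeval_trip {R : Type*} [CommRing R] [Algebra ℚ_[2] R] (D : Ten ℚ_[2]) (a : Idx → R)
    (i j k : Fin 3) : aeval a (trip D i j k) = tri D (row a i) (row a j) (row a k) := by
  have h : ∀ i : Fin 3, (fun l => aeval a (row (X : Idx → MvPolynomial Idx ℚ_[2]) i l)) = row a i := by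
    intro i
    funext l
    have h1 := row_map ((aeval a : MvPolynomial Idx ℚ_[2] →ₐ[ℚ_[2]] R) :
      MvPolynomial Idx ℚ_[2] →+* R) X i l
    simpa using h1
  rw [trip, tri_map D (aeval a : MvPolynomial Idx ℚ_[2] →ₐ[ℚ_[2]] R), h, h, h]

theorem exists_norm_eq (v : Idx → ℚ_[2]) : ∃ q, ‖v q‖ = ‖v‖ := by
  obtain ⟨q, -, hq⟩ := Finset.exists_max_image Finset.univ (fun q => ‖v q‖) Finset.univ_nonempty
  refine ⟨q, le_antisymm (norm_le_pi_norm v q) ?_⟩
  exact (pi_norm_le_iff_of_nonneg (norm_nonneg _)).2 fun p => hq p (Finset.mem_univ p)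

/-- the sup norm is unchanged by a smaller vector -/
theorem norm_add_small (v e : Idx → ℚ_[2]) (h : ∀ q, ‖e q‖ < ‖v‖) : ‖v + e‖ = ‖v‖ := by
  apply le_antisymm
  · refine (pi_norm_le_iff_of_nonneg (norm_nonneg _)).2 fun q => ?_
    refine (Padic.nonarchimedean (v q) (e q)).trans (max_le (norm_le_pi_norm v q) (h q).le)
  · obtain ⟨q, hq⟩ := exists_norm_eq v
    have h1 : ‖v q + e q‖ = ‖v q‖ := by
      rw [Padic.add_eq_max_of_ne (by rw [hq]; exact (h q).ne'), hq, max_eq_left (h q).le]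
    rw [← hq, ← h1]
    exact norm_le_pi_norm (v + e) q

theorem germ_arc (L : ℕ → Subfield ℚ_[2]) (x : ℕ → Idx → ℚ_[2]) (hL : ∀ n q, x n q ∈ L n)
    (h0 : ∀ n, x n ≠ 0) (hx : Tendsto x atTop (𝓝 0)) (D : Ten ℚ_[2]) (hpl : ∀ n, Pl D (x n)) :
    ∃ (t : GO) (w : Idx → ℚ_[2]) (a : Idx → GO), t ≠ 0 ∧ t ∈ sm ∧ ‖w‖ = 1 ∧
      ArcM t sm (rat L) D w a ∧
      ∀ b : Idx → GO, (∀ q, b q ∈ rat L) → ∃ y : ℕ → Idx → ℚ_[2], (∀ n q, y n q ∈ L n) ∧
        (∀ f : MvPolynomial Idx ℚ_[2], aeval b f = 0 ↔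
          ∀ᶠ n in (UU : Filter ℕ), eval (y n) f = 0) ∧
        ∀ w' : Idx → ℚ_[2], w' ≠ 0 →
          (∀ q, b q - t * algebraMap ℚ_[2] GO (w' q) ∈ Ideal.span {t} * sm) →
          ∀ᶠ n in (UU : Filter ℕ), ‖y n‖ = ‖x n‖ * ‖w'‖ := by
  classical
  choose p hp using fun n => exists_norm_eq (x n)
  have hn0 : ∀ n, ‖x n‖ ≠ 0 := fun n => norm_ne_zero_iff.2 (h0 n)
  have ht0 : ∀ n, x n (p n) ≠ 0 := fun n => by
    rw [← norm_ne_zero_iff, hp n]; exact hn0 n
  have hxn : Tendsto (fun n => ‖x n‖) atTop (𝓝 0) := by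
    have := hx.norm
    rwa [norm_zero] at this
  have hUU : (UU : Filter ℕ) ≤ atTop := Nat.hyperfilter_le_atTop
  obtain ⟨C, hC⟩ := hxn.bddAbove_range
  have hC' : ∀ n, ‖x n‖ ≤ C := fun n => hC ⟨n, rfl⟩
  let tn : Bdd := ⟨fun n => x n (p n), C, fun n => by
    change ‖x n (p n)‖ ≤ C
    rw [hp n]; exact hC' n⟩
  let xn : Idx → Bdd := fun q => ⟨fun n => x n q, C, fun n => (norm_le_pi_norm (x n) q).trans (hC' n)⟩
  -- the directions
  let y : ℕ → Idx → ℚ_[2] := fun n q => x n q / x n (p n)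
  have hy1 : ∀ n, ‖y n‖ = 1 := by
    intro n
    have h1 : y n = (x n (p n))⁻¹ • x n := by
      funext q
      simp only [y, Pi.smul_apply, smul_eq_mul]
      rw [div_eq_inv_mul]
    rw [h1, norm_smul, norm_inv, hp n, inv_mul_cancel₀ (hn0 n)]
  obtain ⟨w, hw⟩ : ∃ w, Tendsto y UU (𝓝 w) := by
    have hK : IsCompact (Metric.closedBall (0 : Idx → ℚ_[2]) 1) := isCompact_closedBall 0 1
    have h1 := hK.ultrafilter_le_nhds (UU.map y) (by
      rw [Ultrafilter.coe_map, le_principal_iff, mem_map]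
      refine Eventually.of_forall fun n => ?_
      rw [mem_closedBall_zero_iff, hy1])
    obtain ⟨w, -, hw⟩ := h1
    exact ⟨w, hw⟩
  have hwn : ‖w‖ = 1 := by
    have h1 := hw.norm
    simp only [hy1] at h1
    exact (tendsto_nhds_unique h1 tendsto_const_nhds)
  have htsm : Tendsto tn.1 UU (𝓝 0) := by
    rw [tendsto_zero_iff_norm_tendsto_zero]
    have h1 := hxn.mono_left hUU
    refine h1.congr fun n => ?_
    exact (hp n).symm
  refine ⟨Ideal.Quotient.mk Zer tn, w, fun q => Ideal.Quotient.mk Zer (xn q), ?_, ⟨tn, rfl, htsm⟩,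
    hwn, ⟨?_, ?_, ?_⟩, ?_⟩
  · rw [Ne, mk_eq_zero_iff]
    intro h
    have h1 : ∀ᶠ n in (UU : Filter ℕ), False := h.mono fun n hn => ht0 n hn
    exact (UU.neBot.ne (by rwa [eventually_false_iff_eq_bot] at h1))
  · intro i j k
    rw [← aeval_trip, aeval_eq_zero_iff]
    refine Eventually.of_forall fun n => ?_
    have h1 := aeval_trip D (x n) i j k
    rw [hpl n i j k] at h1
    rw [← coe_aeval_eq_eval]
    exact h1
  · intro q
    have hb : ∃ C : ℝ, ∀ n, ‖y n q - w q‖ ≤ C := ⟨1 + ‖w q‖, fun n =>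
      (norm_sub_le _ _).trans (add_le_add_left ((norm_le_pi_norm (y n) q).trans (hy1 n).le) _)⟩
    have he : Ideal.Quotient.mk Zer (⟨fun n => y n q - w q, hb⟩ : Bdd) ∈ sm := by
      refine ⟨_, rfl, ?_⟩
      have h1 := (tendsto_pi_nhds.1 hw q).sub_const (w q)
      rw [sub_self] at h1
      exact h1
    have h2 : Ideal.Quotient.mk Zer (xn q) - Ideal.Quotient.mk Zer tn * algebraMap ℚ_[2] GO (w q)
        = Ideal.Quotient.mk Zer tn * Ideal.Quotient.mk Zer (⟨fun n => y n q - w q, hb⟩ : Bdd) := by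
      have h3 : algebraMap ℚ_[2] GO (w q) = Ideal.Quotient.mk Zer (cst (w q)) := rfl
      rw [h3, ← map_mul, ← map_mul, ← map_sub]
      congr 1
      apply Subtype.ext
      funext n
      change x n q - x n (p n) * w q = x n (p n) * (x n q / x n (p n) - w q)
      rw [mul_sub, mul_div_cancel₀ _ (ht0 n)]
    rw [h2]
    exact Ideal.mul_mem_mul (Ideal.mem_span_singleton_self _) he
  · intro q
    exact ⟨xn q, rfl, fun n => hL n q⟩
  · intro b hb
    choose Y hYb hYL using hb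
    have hbY : b = fun q => Ideal.Quotient.mk Zer (Y q) := funext fun q => (hYb q).symm
    refine ⟨fun n q => (Y q).1 n, fun n q => hYL q n, ?_, ?_⟩
    · intro f
      rw [hbY, aeval_eq_zero_iff]
    · intro w' hw' hmem
      have h1 : ∀ q, ∃ E : Bdd, Tendsto E.1 UU (𝓝 0) ∧
          ∀ᶠ n in (UU : Filter ℕ), (Y q).1 n = x n (p n) * (w' q + E.1 n) := by
        intro q
        obtain ⟨e, ⟨E, rfl, hE⟩, he⟩ := Ideal.mem_span_singleton_mul.1 (hmem q)
        refine ⟨E, hE, ?_⟩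
        have h3 : algebraMap ℚ_[2] GO (w' q) = Ideal.Quotient.mk Zer (cst (w' q)) := rfl
        rw [← hYb q, h3, ← map_mul, ← map_mul, ← map_sub, eq_comm, ← sub_eq_zero, ← map_sub,
          mk_eq_zero_iff] at he
        filter_upwards [he] with n hn
        change (Y q).1 n - x n (p n) * w' q - x n (p n) * E.1 n = 0 at hn
        linear_combination hn
      choose E hE hYE using h1
      have h2 : ∀ᶠ n in (UU : Filter ℕ), ∀ q, (Y q).1 n = x n (p n) * (w' q + (E q).1 n) :=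
        eventually_all.2 hYE
      have h3 : ∀ᶠ n in (UU : Filter ℕ), ∀ q, ‖(E q).1 n‖ < ‖w'‖ := by
        refine eventually_all.2 fun q => ?_
        have h4 := (hE q).norm
        rw [norm_zero] at h4
        exact h4.eventually (gt_mem_nhds (norm_pos_iff.2 hw'))
      filter_upwards [h2, h3] with n hn1 hn2
      have h5 : (fun q => (Y q).1 n) = (x n (p n)) • (w' + fun q => (E q).1 n) := by
        funext q
        rw [hn1 q]
        rfl
      rw [h5, norm_smul, hp n, norm_add_small w' _ hn2]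

end Pool.Agent.Helper81.CQ
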